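import Pool.Agent.Q155.Growth.Upper

set_option autoImplicit false

namespace Q155.Growth

open Finset Q155.Shift

/-- Sequences of the form `2 i + δ i`. -/
theorem av_two {b c k h n : ℕ} (hk : k = 2 * h) (δ : ℕ → ℤ) (hδ : ∀ i, δ i = 0 ∨ δ i = 1)
    (hanti : ∀ i, δ (i + h) ≠ δ i) (hgap : ∀ i, i + b ≤ n → δ (i + b) ≤ δ i + (c - 2 * b)) :
    Av b c k n := by
  refine ⟨fun i => 2 * i + δ i - δ 0, ⟨by simp, ?_, ?_⟩, ?_⟩
  · intro i _
    have h1 := hδ i
    have h2 := hδ (i + 1)
    push_cast
    omega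
  · intro i hi
    beta_reduce
    have h1 := hgap i hi
    push_cast
    omega
  · rintro ⟨i, j, h1, h2, h3⟩
    beta_reduce at h3
    have h4 := hδ i
    have h5 := hδ j
    have h6 : j = i + h := by omega
    subst h6
    have := hanti i
    omega

/-- A sequence for `2 ^ s ∣ b`, `k = 2 ^ s * odd`. -/
theorem av_inf1 {b c k s m : ℕ} (hc : 2 * b ≤ c) (hb : 2 ^ s ∣ b) (hm : m % 2 = 1)
    (hk : k = 2 ^ s * m) (n : ℕ) : Av b c k n := by
  obtain ⟨p, hp⟩ : ∃ p, p = 2 ^ s := ⟨_, rfl⟩
  rw [← hp] at hb hk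
  have hp0 : 0 < p := by rw [hp]; positivity
  obtain ⟨b1, rfl⟩ := hb
  refine ⟨fun i => 2 * p * ((i / p : ℕ) : ℤ) + ((i % p : ℕ) : ℤ), ⟨by simp, ?_, ?_⟩, ?_⟩
  · intro i _
    beta_reduce
    have h1 := Nat.div_add_mod i p
    have h2 := Nat.div_add_mod (i + 1) p
    have h3 := Nat.mod_lt i hp0
    have h4 := Nat.mod_lt (i + 1) hp0
    have h5 : i / p ≤ (i + 1) / p := Nat.div_le_div_right (by omega)
    rcases Nat.eq_or_lt_of_le h5 with h6 | h6
    · rw [← h6] at h2 ⊢
      have : i % p < (i + 1) % p := by omega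
      omega
    · have h7 : (p : ℤ) * (((i / p : ℕ) : ℤ) + 1) ≤ p * (((i + 1) / p : ℕ) : ℤ) := by
        apply mul_le_mul_of_nonneg_left _ (by positivity)
        exact_mod_cast h6
      have h8 : ((i % p : ℕ) : ℤ) < p := by exact_mod_cast h3
      have h9 : (0 : ℤ) ≤ (((i + 1) % p : ℕ) : ℤ) := Int.natCast_nonneg _
      have h10 : (1 : ℤ) ≤ p := by exact_mod_cast hp0
      linarith
  · intro i _
    beta_reduce
    rw [Nat.add_mul_div_left _ _ hp0, Nat.add_mul_mod_self_left]
    push_cast
    have : ((2 * (p * b1) : ℕ) : ℤ) ≤ c := by exact_mod_cast hc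
    push_cast at this
    nlinarith
  · rintro ⟨i, j, h1, -, h3⟩
    beta_reduce at h3
    have h4 := Nat.mod_lt i hp0
    have h5 := Nat.mod_lt j hp0
    have h6 : (p : ℤ) ∣ ((j % p : ℕ) : ℤ) - ((i % p : ℕ) : ℤ) := by
      refine ⟨m - 2 * ((j / p : ℕ) : ℤ) + 2 * ((i / p : ℕ) : ℤ), ?_⟩
      rw [hk] at h3
      push_cast at h3 ⊢
      linear_combination h3
    have h7 : ((j % p : ℕ) : ℤ) - ((i % p : ℕ) : ℤ) = 0 :=
      Int.eq_zero_of_abs_lt_dvd h6 (by rw [abs_lt]; constructor <;> omega)
    have h8 : (p : ℤ) * (2 * (((j / p : ℕ) : ℤ) - ((i / p : ℕ) : ℤ)) - m) = 0 := by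
      rw [hk] at h3
      push_cast at h3 h7 ⊢
      linear_combination h3 - h7
    rcases mul_eq_zero.1 h8 with h9 | h9
    · have : p = 0 := by exact_mod_cast h9
      omega
    · omega

/-- A sequence for `c > 2 b` and even `k`. -/
theorem av_inf2 {b c k h : ℕ} (hc : 2 * b < c) (hk : k = 2 * h) (hh : 0 < h) (n : ℕ) :
    Av b c k n := by
  apply av_two hk (fun i => if i % k < h then 0 else 1)
  · intro i
    beta_reduce
    split_ifs
    · exact Or.inl rfl
    · exact Or.inr rfl
  · intro i
    beta_reduce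
    have h1 : (i + h) % k = if i % k < h then i % k + h else i % k - h := by
      have h2 := Nat.div_add_mod i k
      have h3 := Nat.mod_lt i (show 0 < k by omega)
      split_ifs with h4
      · have e : i + h = (i % k + h) + k * (i / k) := by omega
        rw [e, Nat.add_mul_mod_self_left, Nat.mod_eq_of_lt (by omega)]
      · have e : i + h = (i % k - h) + k * (i / k + 1) := by
          rw [Nat.mul_add, Nat.mul_one]
          omega
        rw [e, Nat.add_mul_mod_self_left, Nat.mod_eq_of_lt (by omega)]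
    have h3 := Nat.mod_lt i (show 0 < k by omega)
    rw [h1]
    split_ifs <;> omega
  · intro i _
    beta_reduce
    split_ifs <;> omega

/-- The lower bound for `c = 2 b`, coprime case. -/
theorem double_lower_coprime {b k h : ℕ} (hk : k = 2 * h) (hh : 0 < h) (hco : Nat.Coprime b k) :
    Av b (2 * b) k (b + k - 2) := by
  have hbodd : b % 2 = 1 := by
    by_contra hne
    have h2 : 2 ∣ Nat.gcd b k := Nat.dvd_gcd (by omega) (by omega)
    rw [hco] at h2
    omega
  obtain ⟨e, -, he⟩ := Nat.exists_mul_mod_eq_one_of_coprime hco (by omega)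
  have heodd : e % 2 = 1 := by
    by_contra hne
    have h3 : (b * e) % k % 2 = 0 := by
      rw [Nat.mod_mod_of_dvd _ (by omega), Nat.mul_mod, show e % 2 = 0 by omega, Nat.mul_zero]
    rw [he] at h3
    omega
  obtain ⟨e', he'⟩ : ∃ e', e = 2 * e' + 1 := ⟨e / 2, by omega⟩
  set T : ℕ → ℕ := fun x => ((x + 1) * e + (k - 1)) % k with hT
  have hTlt : ∀ x, T x < k := fun x => Nat.mod_lt _ (by omega)
  have hTh : ∀ x, T (x + h) = (T x + h) % k := by
    intro x
    simp only [hT]
    rw [Nat.mod_add_mod]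
    have e1 : (x + h + 1) * e + (k - 1) = (x + 1) * e + (k - 1) + h + k * e' := by
      rw [hk, he']
      ring
    rw [e1, Nat.add_mul_mod_self_left]
  have hTb : ∀ x, T (x + b) = (T x + 1) % k := by
    intro x
    simp only [hT]
    rw [Nat.mod_add_mod]
    have e1 : (x + b + 1) * e + (k - 1) = (x + 1) * e + (k - 1) + b * e := by ring
    rw [e1, Nat.add_mod _ (b * e), he, Nat.mod_add_mod]
  apply av_two hk (fun x => if T x < h then 1 else 0)
  · intro i
    beta_reduce
    split_ifs
    · exact Or.inr rfl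
    · exact Or.inl rfl
  · intro i
    beta_reduce
    have h1 := hTlt i
    have h2 : T (i + h) = if T i < h then T i + h else T i - h := by
      rw [hTh]
      split_ifs with h3
      · exact Nat.mod_eq_of_lt (by omega)
      · have e1 : T i + h = (T i - h) + k := by omega
        rw [e1, Nat.add_mod_right, Nat.mod_eq_of_lt (by omega)]
    rw [h2]
    split_ifs <;> omega
  · intro i hi
    beta_reduce
    have h1 := hTlt i
    have h2 : T i ≠ k - 1 := by
      intro h3
      have h4 : (k : ℕ) ∣ (i + 1) * e := by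
        have h5 := Nat.div_add_mod ((i + 1) * e + (k - 1)) k
        simp only [hT] at h3
        rw [h3] at h5
        exact ⟨((i + 1) * e + (k - 1)) / k, by omega⟩
      have hco2 : Nat.Coprime k e := by
        have h6 : Nat.gcd k e ∣ 1 := by
          rw [← he]
          rw [Nat.dvd_mod_iff (Nat.gcd_dvd_left k e)]
          exact Dvd.dvd.mul_left (Nat.gcd_dvd_right k e) b
        exact Nat.dvd_one.1 h6
      have h7 : k ∣ i + 1 := hco2.dvd_of_dvd_mul_right h4
      have := Nat.le_of_dvd (by omega) h7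
      omega
    have h3 : T (i + b) = T i + 1 := by
      rw [hTb]
      exact Nat.mod_eq_of_lt (by omega)
    rw [h3]
    push_cast
    split_ifs <;> omega

/-- Replacing each value by a block of `g` values. -/
theorem blow_up {b c k n g : ℕ} (hg : 0 < g) (hk0 : 0 < k) (h : Av b c k n) :
    Av (g * b) (g * c) (g * k) (g * (n + 1) - 1) := by
  obtain ⟨a, ha, hk⟩ := h
  have hdiv : ∀ i, i ≤ g * (n + 1) - 1 → i / g ≤ n := by
    intro i hi
    have h1 : i / g < n + 1 := by
      rw [Nat.div_lt_iff_lt_mul hg]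
      have : 0 < g * (n + 1) := by positivity
      rw [Nat.mul_comm]
      omega
    omega
  refine ⟨fun i => g * a (i / g) + ((i % g : ℕ) : ℤ), ⟨by simp [ha.zero], ?_, ?_⟩, ?_⟩
  · intro i hi
    beta_reduce
    have h0 := hdiv (i + 1) (by omega)
    have h1 := Nat.div_add_mod i g
    have h2 := Nat.div_add_mod (i + 1) g
    have h3 := Nat.mod_lt i hg
    have h4 := Nat.mod_lt (i + 1) hg
    have h5 : i / g ≤ (i + 1) / g := Nat.div_le_div_right (by omega)
    rcases Nat.eq_or_lt_of_le h5 with h6 | h6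
    · rw [← h6] at h2 ⊢
      have : i % g < (i + 1) % g := by omega
      omega
    · have h7 := ha.lt h6 h0
      have h8 : (g : ℤ) * (a (i / g) + 1) ≤ g * a ((i + 1) / g) :=
        mul_le_mul_of_nonneg_left (by omega) (by positivity)
      rw [mul_add, mul_one] at h8
      omega
  · intro i hi
    beta_reduce
    have h0 := hdiv _ hi
    rw [Nat.add_mul_div_left _ _ hg] at h0 ⊢
    rw [Nat.add_mul_mod_self_left]
    have h1 := ha.gap (i / g) h0
    have h2 : (g : ℤ) * a (i / g + b) ≤ g * (a (i / g) + c) :=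
      mul_le_mul_of_nonneg_left h1 (by positivity)
    rw [mul_add] at h2
    push_cast at h2 ⊢
    linarith
  · rintro ⟨i, j, h1, h2, h3⟩
    beta_reduce at h3
    have h4 := Nat.mod_lt i hg
    have h5 := Nat.mod_lt j hg
    have h6 : (g : ℤ) ∣ ((j % g : ℕ) : ℤ) - ((i % g : ℕ) : ℤ) := by
      refine ⟨k - a (j / g) + a (i / g), ?_⟩
      push_cast at h3 ⊢
      linear_combination h3
    have h7 : ((j % g : ℕ) : ℤ) - ((i % g : ℕ) : ℤ) = 0 :=
      Int.eq_zero_of_abs_lt_dvd h6 (by rw [abs_lt]; constructor <;> omega)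
    have h8 : (g : ℤ) * (a (j / g) - a (i / g) - k) = 0 := by
      push_cast at h3 h7 ⊢
      linear_combination h3 - h7
    rcases mul_eq_zero.1 h8 with h9 | h9
    · have : g = 0 := by exact_mod_cast h9
      omega
    · exact no_hit hk0 ha hk (hdiv i (by omega)) (hdiv j h2) (by omega)

/-- The upper bound for `c = 2 b`. -/
theorem double_upper {b k g h : ℕ} (hg : 0 < g) (hb : 0 < b) (hk : k = 2 * h) (hh : 0 < h)
    (hco : Nat.Coprime b k) : ¬ Av (g * b) (2 * (g * b)) (g * k) (g * (b + k - 1)) := by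
  rintro ⟨a, ha, hhit⟩
  set P := b + k with hP
  have hP0 : 0 < P := by omega
  have hgk : 0 < g * k := Nat.mul_pos hg (by omega)
  have hidx : ∀ j, j < P → g * j ≤ g * (P - 1) := fun j hj => Nat.mul_le_mul_left g (by omega)
  set d : ℕ → ℤ := fun j => a (g * j) - 2 * (g * j : ℕ) with hd
  have hstep : ∀ j, j < P → d j ≤ d ((j + k) % P) := by
    intro j hj
    rcases Nat.lt_or_ge j b with h1 | h1
    · rw [Nat.mod_eq_of_lt (by omega)]
      have h2 := hidx (j + k) (by omega)
      rw [Nat.mul_add] at h2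
      have h3 := two_mul_le hgk ha hhit h2
      simp only [hd]
      rw [Nat.mul_add]
      push_cast at h3 ⊢
      linarith
    · have e : (j + k) % P = j - b := by
        have e1 : j + k = (j - b) + P := by omega
        rw [e1, Nat.add_mod_right, Nat.mod_eq_of_lt (by omega)]
      rw [e]
      have e2 : g * (j - b) + g * b = g * j := by
        rw [← Nat.mul_add]
        congr 1
        omega
      have h3 := ha.gap (g * (j - b)) (by rw [e2]; exact hidx j hj)
      rw [e2] at h3
      simp only [hd]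
      have e3 : ((g * j : ℕ) : ℤ) = ((g * (j - b) : ℕ) : ℤ) + ((g * b : ℕ) : ℤ) := by
        exact_mod_cast e2.symm
      rw [e3]
      push_cast at h3 ⊢
      linarith
  set F : ℕ → ℤ := fun m => d ((m * k) % P) with hF
  have hFm : ∀ m, F m ≤ F (m + 1) := by
    intro m
    simp only [hF]
    have h1 := hstep ((m * k) % P) (Nat.mod_lt _ hP0)
    rw [Nat.mod_add_mod] at h1
    have e : m * k + k = (m + 1) * k := by ring
    rw [e] at h1
    exact h1
  have hmono : Monotone F := monotone_nat_of_le_succ hFm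
  have hd0 : d 0 = 0 := by
    simp only [hd]
    rw [Nat.mul_zero, ha.zero]
    rfl
  have hF0 : F 0 = 0 := by
    simp only [hF]
    rw [Nat.zero_mul, Nat.zero_mod, hd0]
  have hFP : ∀ m, F (P * m) = 0 := by
    intro m
    simp only [hF]
    rw [Nat.mul_assoc, Nat.mul_mod_right, hd0]
  have hall : ∀ m, F m = 0 := by
    intro m
    have h1 := hmono (Nat.zero_le m)
    have h2 := hmono (show m ≤ P * m from Nat.le_mul_of_pos_left m hP0)
    rw [hFP] at h2
    rw [hF0] at h1
    omega
  have hco2 : Nat.Coprime k P := by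
    rw [hP]
    exact (Nat.coprime_add_self_right).2 hco.symm
  obtain ⟨m, -, hm⟩ := Nat.exists_mul_mod_eq_one_of_coprime hco2 (by omega)
  have h1 : (m * h * k) % P = h := by
    have e : m * h * k = k * m * h := by ring
    rw [e, Nat.mul_mod, hm, one_mul, Nat.mod_mod, Nat.mod_eq_of_lt (by omega)]
  have h2 := hall (m * h)
  simp only [hF] at h2
  rw [h1] at h2
  simp only [hd] at h2
  apply hhit
  refine ⟨0, g * h, Nat.mul_pos hg hh, hidx h (by omega), ?_⟩
  rw [ha.zero, hk]
  push_cast at h2 ⊢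
  linarith

end Q155.Growth
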