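import Pool.Agent.Q155.Shift.Proof

set_option autoImplicit false

namespace Q155.Growth

open Finset Q155.Shift

theorem av_id {b c k : ℕ} (hk0 : 1 ≤ k) (hbc : b ≤ c) : Av b c k (k - 1) := by
  refine ⟨fun i => i, ⟨rfl, fun i _ => by push_cast; omega, fun i _ => by push_cast; omega⟩, ?_⟩
  rintro ⟨i, j, h1, h2, h3⟩
  beta_reduce at h3
  omega

theorem av_short {b c k n : ℕ} (hk0 : 0 < k) (hn : n < b) : Av b c k n := by
  refine ⟨fun i => 2 * k * i, ⟨by simp, ?_, ?_⟩, ?_⟩
  · intro i _
    push_cast
    have : (0 : ℤ) < k := by exact_mod_cast hk0
    nlinarith
  · intro i hi
    omega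
  · rintro ⟨i, j, h1, -, h3⟩
    have h4 : (k : ℤ) * (2 * (j - i) - 1) = 0 := by
      push_cast at h3
      linear_combination h3
    rcases mul_eq_zero.1 h4 with h5 | h5
    · have : k = 0 := by exact_mod_cast h5
      omega
    · omega

theorem eq_of_emod_eq {w x y : ℤ} (h : x % w = y % w) (h1 : x - y < w) (h2 : y - x < w) :
    x = y := by
  have h3 : w ∣ x - y := Int.dvd_of_emod_eq_zero (Int.emod_eq_emod_iff_emod_sub_eq_zero.1 h)
  have h4 : x - y = 0 := Int.eq_zero_of_abs_lt_dvd h3 (by rw [abs_lt]; constructor <;> omega)
  omega

/-- The construction behind the lower bound. -/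
theorem lower {b c k q s t : ℕ} (hbk : b < k) (hkc : k < c) (hc : c < 2 * b)
    (hu : q * (2 * k - c) + s + k + 2 * b = 2 * c) (hts : t ≤ s) (htD : t ≤ k - b)
    (hpos : 0 < q * (k - b) + t) :
    Av b c k (k + (q * (k - b) + t) - 1) := by
  classical
  obtain ⟨D, hD⟩ : ∃ D, D = k - b := ⟨_, rfl⟩
  obtain ⟨w, hw⟩ : ∃ w, w = 2 * k - c := ⟨_, rfl⟩
  rw [← hD] at htD hpos ⊢
  rw [← hw] at hu
  have hD0 : 0 < D := by omega
  have hDw : 2 * D < w := by omega
  -- `Q = q w`, `L = Q + t` is the length of the first phase, `α = L + w - D`
  set Q : ℤ := (q : ℤ) * w with hQ
  have hQ0 : 0 ≤ Q := by positivity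
  have hku : Q + s + k + 2 * b = 2 * c := by rw [hQ]; exact_mod_cast hu
  set S : Finset ℤ := (Finset.Ico (0 : ℤ) (Q + t)).filter (fun x => x % w < D) with hS
  have hmS : ∀ x, x ∈ S ↔ (0 ≤ x ∧ x < Q + t) ∧ x % w < D := by
    intro x; rw [hS, mem_filter, mem_Ico]
  set α : ℤ := Q + t + w - D with hα
  set M : Finset ℤ := (Finset.Ico α (α + k)).filter (fun y : ℤ => y - (k : ℤ) ∉ S) with hM
  have hmM : ∀ x, x ∈ M ↔ (α ≤ x ∧ x < α + k) ∧ x - k ∉ S := by
    intro x; rw [hM, mem_filter, mem_Ico]
  set E : Finset ℤ := S.image (fun x => x + 2 * k) with hE
  have hmE : ∀ x, x ∈ E ↔ x - 2 * k ∈ S := by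
    intro x
    rw [hE, mem_image]
    constructor
    · rintro ⟨z, hz, rfl⟩
      rw [add_sub_cancel_right]
      exact hz
    · intro h
      exact ⟨x - 2 * k, h, by ring⟩
  have hSr : ∀ x, x ∈ S → 0 ≤ x ∧ x < Q + t := fun x hx => ((hmS x).1 hx).1
  have hkα : α + D ≤ k - 1 := by omega
  have hSc : q * D + t ≤ S.card := by
    have h1 : (Finset.range (q * D + t)).card ≤ S.card := by
      apply Finset.card_le_card_of_injOn (fun i => ((w * (i / D) + i % D : ℕ) : ℤ))
      · intro i hi
        rw [mem_coe, mem_range] at hi
        rw [mem_coe, hmS]
        beta_reduce
        have h2 := Nat.mod_lt i hD0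
        have h3 := Nat.div_add_mod i D
        have e : ((w * q : ℕ) : ℤ) = Q := by rw [hQ]; push_cast; ring
        refine ⟨⟨Int.natCast_nonneg _, ?_⟩, ?_⟩
        · have h4 : i / D ≤ q := by
            have : i / D < q + 1 + 1 := by
              rw [Nat.div_lt_iff_lt_mul hD0]
              nlinarith
            rcases Nat.lt_or_ge (i / D) (q + 1) with h | h
            · omega
            · have h6 : i / D = q + 1 := by omega
              rw [h6] at h3
              have : D * (q + 1) = q * D + D := by ring
              omega
          have h7 : w * (i / D) + i % D < w * q + t := by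
            rcases Nat.lt_or_ge (i / D) q with h5 | h5
            · have h6 : w * (i / D + 1) ≤ w * q := Nat.mul_le_mul_left w h5
              rw [Nat.mul_add, Nat.mul_one] at h6
              omega
            · have h6 : i / D = q := by omega
              rw [h6] at h3 ⊢
              have h7 : D * q = q * D := by ring
              omega
          have h8 : ((w * (i / D) + i % D : ℕ) : ℤ) < ((w * q + t : ℕ) : ℤ) := by exact_mod_cast h7
          rw [Nat.cast_add (w * q) t, e] at h8
          exact h8
        · have h4 : (w * (i / D) + i % D) % w = i % D := by
            rw [Nat.mul_add_mod]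
            exact Nat.mod_eq_of_lt (by omega)
          rw [← Int.natCast_mod, h4]
          exact_mod_cast h2
      · intro i _ j _ hij
        beta_reduce at hij
        have h1 : w * (i / D) + i % D = w * (j / D) + j % D := by exact_mod_cast hij
        have h2 := Nat.mod_lt i hD0
        have h3 := Nat.mod_lt j hD0
        have h5 : ∀ p r : ℕ, r < D → (w * p + r) / w = p := by
          intro p r hr
          rw [Nat.mul_add_div (by omega), Nat.div_eq_of_lt (by omega), add_zero]
        have h4 : (w * (i / D) + i % D) / w = (w * (j / D) + j % D) / w := by rw [h1]
        rw [h5 _ _ h2, h5 _ _ h3] at h4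
        rw [h4] at h1
        rw [← Nat.div_add_mod i D, ← Nat.div_add_mod j D, h4]
        omega
    rwa [card_range] at h1
  have hShift : ∀ (β : ℤ), β ≤ k → Q + t ≤ β →
      ((Finset.Ico β (α + (k : ℤ))).filter (fun y : ℤ => y - (k : ℤ) ∉ S)).card + S.card = (α + (k : ℤ) - β).toNat := by
    intro β hβ _
    have h1 := Finset.card_filter_add_card_filter_not (s := Finset.Ico β (α + k))
      (fun y : ℤ => y - (k : ℤ) ∉ S)
    have h2 : (Finset.Ico β (α + (k : ℤ))).filter (fun y : ℤ => ¬ (y - (k : ℤ) ∉ S)) = S.image (fun x : ℤ => x + (k : ℤ)) := by
      ext y
      rw [mem_filter, mem_Ico, mem_image, not_not]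
      constructor
      · rintro ⟨_, h⟩
        exact ⟨y - k, h, by ring⟩
      · rintro ⟨z, hz, rfl⟩
        have := hSr z hz
        rw [add_sub_cancel_right]
        exact ⟨by omega, hz⟩
    rw [h2, card_image_of_injective _ (add_left_injective _), Int.card_Ico] at h1
    exact h1
  have hEc : E.card = S.card := card_image_of_injective _ (add_left_injective _)
  have hMc : M.card + S.card = k := by
    rw [hM, hShift α (by omega) (by omega)]
    omega
  set B : Finset ℤ := S ∪ M ∪ E with hB
  have hmB : ∀ x, x ∈ B ↔ x ∈ S ∨ x ∈ M ∨ x ∈ E := by
    intro x
    rw [hB, mem_union, mem_union, or_assoc]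
  have hSM : Disjoint S M := by
    rw [Finset.disjoint_left]
    intro x hx hx'
    have h1 := hSr x hx
    have h2 := (hmM x).1 hx'
    omega
  have hSME : Disjoint (S ∪ M) E := by
    rw [Finset.disjoint_left]
    intro x hx hx'
    have h2 := hSr _ ((hmE x).1 hx')
    rw [mem_union] at hx
    rcases hx with h | h
    · have := hSr _ h
      omega
    · have := (hmM x).1 h
      omega
  have hBc : B.card = k + S.card := by
    rw [hB, card_union_of_disjoint hSME, card_union_of_disjoint hSM, hEc]
    omega
  have hmain : Av b c k (k + S.card - 1) := by
    apply av_of_set b c k (k + S.card - 1) B (by omega)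
    · rw [hmB, hmS]
      left
      refine ⟨⟨le_rfl, ?_⟩, by rw [Int.zero_emod]; omega⟩
      rcases Nat.eq_zero_or_pos t with h | h
      · subst h
        have h2 : 0 < q := by
          rcases Nat.eq_zero_or_pos q with h3 | h3
          · subst h3
            simp at hpos
          · exact h3
        have : 0 < Q := by
          rw [hQ]
          have : (0 : ℤ) < w := by omega
          positivity
        omega
      · omega
    · intro x hx
      rw [hmB] at hx
      rcases hx with hx | hx | hx
      · exact (hSr x hx).1
      · have := (hmM x).1 hx
        omega
      · have := hSr _ ((hmE x).1 hx)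
        omega
    · intro x hx hx'
      rw [hmB] at hx hx'
      rcases hx with hx | hx | hx
      · have h1 := hSr x hx
        rcases hx' with hx' | hx' | hx'
        · have := hSr _ hx'
          omega
        · have := (hmM _).1 hx'
          rw [add_sub_cancel_right] at this
          exact this.2 hx
        · have := hSr _ ((hmE _).1 hx')
          omega
      · have h1 := (hmM x).1 hx
        rcases hx' with hx' | hx' | hx'
        · have := hSr _ hx'
          omega
        · have := (hmM _).1 hx'
          omega
        · have h2 := (hmE _).1 hx'
          apply h1.2
          have e : x + (k : ℤ) - 2 * k = x - k := by ring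
          rwa [e] at h2
      · have h1 := hSr _ ((hmE x).1 hx)
        rcases hx' with hx' | hx' | hx'
        · have := hSr _ hx'
          omega
        · have := (hmM _).1 hx'
          omega
        · have := hSr _ ((hmE _).1 hx')
          omega
    · intro x hx hcount
      -- `x` is in the first phase or among the first `D` elements of the second phase
      have hxS : x ∈ S ∨ (α ≤ x ∧ x < α + D) := by
        by_contra hcon
        push Not at hcon
        obtain ⟨hc1, hc2⟩ := hcon
        have hxα : α + D ≤ x := by
          by_contra hlt
          rw [hmB] at hx
          rcases hx with hx | hx | hx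
          · exact hc1 hx
          · have := (hmM x).1 hx
            have := hc2 this.1.1
            omega
          · have := hSr _ ((hmE x).1 hx)
            omega
        set R := (Finset.Ico (α + (D : ℤ)) (α + (k : ℤ))).filter (fun y : ℤ => y - (k : ℤ) ∉ S) with hR
        have hRc : R.card + S.card = (α + k - (α + D)).toNat := hShift (α + D) (by omega) (by omega)
        have hsub : B.filter (fun z => x < z) ⊆ (R ∪ E).erase x := by
          intro z hz
          rw [mem_filter, hmB] at hz
          rw [mem_erase, mem_union]
          refine ⟨by omega, ?_⟩
          obtain ⟨h1 | h1 | h1, h2⟩ := hz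
          · have := hSr z h1
            omega
          · left
            have := (hmM z).1 h1
            rw [hR, mem_filter, mem_Ico]
            exact ⟨by omega, this.2⟩
          · exact Or.inr h1
        have hxR : x ∈ R ∪ E := by
          rw [hmB] at hx
          rw [mem_union]
          rcases hx with hx | hx | hx
          · exact absurd hx hc1
          · left
            have := (hmM x).1 hx
            rw [hR, mem_filter, mem_Ico]
            exact ⟨by omega, this.2⟩
          · exact Or.inr hx
        have h1 := card_le_card hsub
        rw [card_erase_of_mem hxR] at h1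
        have h2 := card_union_le R E
        omega
      have hxr : 0 ≤ x ∧ x < α + D := by
        rcases hxS with h | h
        · have := hSr x h
          omega
        · omega
      -- the missing values in the middle of the window
      set H := (Finset.Ioo (x + c - k) (x + k)).filter (fun z => z ∉ B) with hH
      have hmH : ∀ z, z ∈ H ↔ (x + c - k < z ∧ z < x + k) ∧ z ∉ B := by
        intro z
        rw [hH, mem_filter, mem_Ioo]
      have hHc : H.card ≤ D - 1 := by
        rcases hxS with h | h
        · -- `x` in `S`
          have hx1 := (hmS x).1 h
          have hz1 : ∀ z ∈ H, z - k < x ∧ x - w < z - k ∧ 0 ≤ (z - k) % w ∧ (z - k) % w < D := by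
            intro z hz
            have h1 := (hmH z).1 hz
            refine ⟨by omega, by omega, Int.emod_nonneg _ (by omega), ?_⟩
            rcases lt_or_ge z α with h2 | h2
            · have h3 : (z - k) % (w : ℤ) = z - k + w := by
                rw [← Int.add_emod_right]
                exact Int.emod_eq_of_lt (by omega) (by omega)
              rw [h3]
              omega
            · have h3 : z - k ∈ S := by
                by_contra h3
                apply h1.2
                rw [hmB, hmM]
                right
                left
                exact ⟨by omega, h3⟩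
              exact ((hmS _).1 h3).2
          have h2 : H.card ≤ ((Finset.Ico (0 : ℤ) D).erase (x % w)).card := by
            apply Finset.card_le_card_of_injOn (fun z => (z - k) % (w : ℤ))
            · intro z hz
              have := hz1 z hz
              rw [mem_coe, mem_erase, mem_Ico]
              refine ⟨?_, this.2.2⟩
              intro he
              have := eq_of_emod_eq he (by omega) (by omega)
              omega
            · intro y hy z hz hyz
              have h3 := hz1 y hy
              have h4 := hz1 z hz
              have := eq_of_emod_eq (x := y - k) (y := z - k) hyz (by omega) (by omega)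
              omega
          rw [card_erase_of_mem, Int.card_Ico] at h2
          · omega
          · rw [mem_Ico]
            exact ⟨Int.emod_nonneg _ (by omega), hx1.2⟩
        · -- `x` in the second phase
          have hz1 : ∀ z ∈ H, α + x - α - w < z - k ∧ z - k < x ∧ (z - k < α → z - k < Q + t) := by
            intro z hz
            have h1 := (hmH z).1 hz
            refine ⟨by omega, by omega, ?_⟩
            intro h2
            have h3 : z - k ∈ S := by
              by_contra h3
              apply h1.2
              rw [hmB, hmM]
              right
              left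
              exact ⟨by omega, h3⟩
            exact (hSr _ h3).2
          have h2 : H.card ≤ ((Finset.Ico (0 : ℤ) D).erase (x - α)).card := by
            apply Finset.card_le_card_of_injOn
              (fun z => if z - k < α then z - k - (α - w) else z - k - α)
            · intro z hz
              have := hz1 z hz
              rw [mem_coe, mem_erase, mem_Ico]
              beta_reduce
              split_ifs with h5
              · have := this.2.2 h5
                refine ⟨by omega, by omega, by omega⟩
              · refine ⟨by omega, by omega, by omega⟩
            · intro y hy z hz hyz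
              have h3 := hz1 y hy
              have h4 := hz1 z hz
              beta_reduce at hyz
              split_ifs at hyz <;> omega
          rw [card_erase_of_mem, Int.card_Ico] at h2
          · omega
          · rw [mem_Ico]
            constructor <;> omega
      -- the injection
      set G := (Finset.Ioo x (x + k)) \ H with hG
      have hHsub : H ⊆ Finset.Ioo x (x + k) := by
        intro z hz
        have := (hmH z).1 hz
        rw [mem_Ioo]
        omega
      have hGc : b ≤ G.card := by
        rw [hG, card_sdiff_of_subset hHsub, Int.card_Ioo]
        omega
      refine hGc.trans ?_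
      apply Finset.card_le_card_of_injOn (fun z => if z ∈ B then z else z + k)
      · intro z hz
        rw [mem_coe, hG, mem_sdiff, mem_Ioo, hmH] at hz
        obtain ⟨hz1, hz2⟩ := hz
        rw [mem_coe, mem_filter]
        beta_reduce
        split_ifs with h1
        · exact ⟨h1, by omega, by omega⟩
        · have h2 : z ≤ x + c - k := by
            by_contra h2
            exact hz2 ⟨⟨by omega, hz1.2⟩, h1⟩
          refine ⟨?_, by omega, by omega⟩
          rw [hmB] at h1 ⊢
          push Not at h1
          obtain ⟨h3, h4, h5⟩ := h1
          rcases lt_or_ge z α with h6 | h6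
          · right
            left
            rw [hmM, add_sub_cancel_right]
            exact ⟨by omega, h3⟩
          · right
            right
            rw [hmE]
            by_contra h7
            apply h4
            rw [hmM]
            refine ⟨by omega, ?_⟩
            have e : z + (k : ℤ) - 2 * k = z - k := by ring
            rwa [e] at h7
      · intro y hy z hz hyz
        rw [mem_coe, hG, mem_sdiff, mem_Ioo] at hy hz
        beta_reduce at hyz
        split_ifs at hyz <;> omega
  exact hmain.mono (by omega)

end Q155.Growth
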