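import Pool.Agent.Q155.Growth.Lower
import Pool.Agent.Q155.Growth.Double

set_option autoImplicit false

namespace Q155.Growth

open Finset Q155.Shift

/-- The value of `N (b, c, k)` for `b ≤ c < 2 b`. -/
def valueLt (b c k : ℕ) : ℕ :=
  if b % k < 2 * b - c then b
  else b + (k - b % k) *
      (1 + (2 * (b % k - (2 * b - c)) - k) / (2 * b - c + 2 * (k - b % k))) +
    min ((2 * (b % k - (2 * b - c)) - k) % (2 * b - c + 2 * (k - b % k))) (k - b % k)

/-- The value of `N (b, c, k)` for all positive integers `b, c, k` with `b ≤ c`. -/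
def value (b c k : ℕ) : ℕ∞ :=
  if c < 2 * b then (valueLt b c k : ℕ∞)
  else if c = 2 * b ∧ padicValNat 2 b < padicValNat 2 k then ((b + k - Nat.gcd b k : ℕ) : ℕ∞)
  else ⊤

theorem valueLt_base {b c k : ℕ} (hb : 0 < b) (hbc : b ≤ c) (hc : c < 2 * b)
    (hbk : b < k) : ¬ Av b c k (valueLt b c k) ∧ Av b c k (valueLt b c k - 1) := by
  have hr : b % k = b := Nat.mod_eq_of_lt hbk
  unfold valueLt
  rw [hr, if_neg (by omega)]
  obtain ⟨D, hD⟩ : ∃ D, D = k - b := ⟨_, rfl⟩
  obtain ⟨w, hw⟩ : ∃ w, w = 2 * b - c + 2 * (k - b) := ⟨_, rfl⟩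
  obtain ⟨u, hu⟩ : ∃ u, u = 2 * (b - (2 * b - c)) - k := ⟨_, rfl⟩
  rw [← hw, ← hu, ← hD]
  have hD0 : 0 < D := by omega
  have hw0 : 0 < w := by omega
  rcases Nat.eq_zero_or_pos u with hu0 | hu0
  · have e : b + D * (1 + u / w) + min (u % w) D = k := by
      rw [hu0, Nat.zero_div, Nat.zero_mod]
      omega
    rw [e]
    refine ⟨?_, av_id (by omega) hbc⟩
    rcases Nat.lt_or_ge k c with h | h
    · have h1 := upper (b := b) (c := c) (k := k) hbk h.le hc 1 0 (by push_cast; omega)
      have e2 : b + 1 * (k - b) + 0 = k := by omega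
      rwa [e2] at h1
    · exact upper' hb hbk h hc
  · have hkc : k < c := by omega
    obtain ⟨q, hq⟩ : ∃ q, q = u / w := ⟨_, rfl⟩
    obtain ⟨s, hs⟩ : ∃ s, s = u % w := ⟨_, rfl⟩
    have hqs : w * q + s = u := by rw [hq, hs]; exact Nat.div_add_mod u w
    have hsw : s < w := by rw [hs]; exact Nat.mod_lt _ hw0
    rw [← hq, ← hs]
    have hwc : w = 2 * k - c := by omega
    have hwz : (w : ℤ) = 2 * k - c := by omega
    have huz : (w : ℤ) * q + s = 2 * c - 2 * b - k := by
      have h1 : ((w * q + s : ℕ) : ℤ) = 2 * c - 2 * b - k := by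
        rw [hqs]
        omega
      push_cast at h1
      exact h1
    constructor
    · rcases Nat.lt_or_ge s D with h | h
      · have h1 := upper (b := b) (c := c) (k := k) hbk hkc.le hc (q + 1) s (by
          rw [← hwz]
          push_cast
          have e : ((q : ℤ) + 1) * w = w * q + w := by ring
          rw [e]
          linarith)
        have e : b + D * (1 + q) + min s D = b + (q + 1) * (k - b) + s := by
          rw [Nat.min_eq_left h.le, ← hD]
          ring
        rw [e]
        exact h1
      · have h1 := upper (b := b) (c := c) (k := k) hbk hkc.le hc (q + 2) 0 (by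
          rw [← hwz]
          push_cast
          have e : ((q : ℤ) + 2) * w = w * q + w + w := by ring
          rw [e]
          have : (s : ℤ) < w := by exact_mod_cast hsw
          linarith)
        have e : b + D * (1 + q) + min s D = b + (q + 2) * (k - b) + 0 := by
          rw [Nat.min_eq_right h, ← hD]
          ring
        rw [e]
        exact h1
    · have hpos : 0 < q * (k - b) + min s D := by
        rcases Nat.eq_zero_or_pos q with h | h
        · subst h
          rw [Nat.mul_zero] at hqs
          omega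
        · have := Nat.mul_pos h hD0
          rw [hD] at this
          omega
      have h1 := lower (b := b) (c := c) (k := k) (q := q) (s := s) (t := min s D) hbk hkc hc (by
          rw [← hwc, Nat.mul_comm]
          omega) (Nat.min_le_left _ _) (by rw [← hD]; exact Nat.min_le_right _ _) hpos
      have e : b + D * (1 + q) + min s D - 1 = k + (q * (k - b) + min s D) - 1 := by
        rw [← hD]
        have : D * (1 + q) = D + q * D := by ring
        omega
      rw [e]
      exact h1

theorem valueLt_spec {c k : ℕ} (b : ℕ) (hb : 0 < b) (hk : 0 < k) (hbc : b ≤ c)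
    (hc : c < 2 * b) : ¬ Av b c k (valueLt b c k) ∧ Av b c k (valueLt b c k - 1) := by
  induction b using Nat.strong_induction_on generalizing c with
  | _ b ih =>
    rcases Nat.lt_or_ge b k with hbk | hbk
    · exact valueLt_base hb hbc hc hbk
    by_cases hrv : b % k < 2 * b - c
    · have e : valueLt b c k = b := by
        unfold valueLt
        rw [if_pos hrv]
      rw [e]
      refine ⟨upper_b hk ?_ hbc, av_short hk (by omega)⟩
      have := Nat.div_add_mod b k
      omega
    · have hbk' : k < b := by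
        rcases Nat.eq_or_lt_of_le hbk with h | h
        · subst h
          rw [Nat.mod_self] at hrv
          omega
        · exact h
      have hr : (b - k) % k = b % k := (Nat.mod_eq_sub_mod hbk).symm
      have h1 : b % k + k ≤ b := by
        have h2 := Nat.div_add_mod b k
        have h3 : 0 < b / k := Nat.div_pos hbk hk
        have h4 : k * 1 ≤ k * (b / k) := Nat.mul_le_mul_left k h3
        omega
      have hv : 2 * (b - k) - (c - 2 * k) = 2 * b - c := by omega
      have h2 := ih (b - k) (by omega) (c := c - 2 * k) (by omega) (by omega) (by omega)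
      have e : valueLt b c k = valueLt (b - k) (c - 2 * k) k + k := by
        unfold valueLt
        rw [hr, hv, if_neg hrv, if_neg hrv]
        omega
      have hpos : 0 < valueLt (b - k) (c - 2 * k) k := by
        unfold valueLt
        split_ifs
        · omega
        · omega
      have e1 : b - k + k = b := by omega
      have e2 : c - 2 * k + 2 * k = c := by omega
      rw [e]
      constructor
      · intro h
        apply h2.1
        apply av_down hk
        rw [e1, e2]
        exact h
      · have h3 := av_up (by omega) (by omega) hk h2.2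
        rw [e1, e2] at h3
        have e3 : valueLt (b - k) (c - 2 * k) k - 1 + k = valueLt (b - k) (c - 2 * k) k + k - 1 := by
          omega
        rw [e3] at h3
        exact h3

/-- The case `c = 2 b` with `v (b) < v (k)`. -/
theorem double_spec {b k : ℕ} (hb : 0 < b) (hk : 0 < k)
    (hv : padicValNat 2 b < padicValNat 2 k) :
    ¬ Av b (2 * b) k (b + k - Nat.gcd b k) ∧ Av b (2 * b) k (b + k - Nat.gcd b k - 1) := by
  obtain ⟨g, hg⟩ : ∃ g, g = Nat.gcd b k := ⟨_, rfl⟩
  have hg0 : 0 < g := by rw [hg]; exact Nat.gcd_pos_of_pos_left k hb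
  obtain ⟨b', hb'⟩ : g ∣ b := by rw [hg]; exact Nat.gcd_dvd_left b k
  obtain ⟨k', hk'⟩ : g ∣ k := by rw [hg]; exact Nat.gcd_dvd_right b k
  have hco : Nat.Coprime b' k' := by
    have h1 : g * Nat.gcd b' k' = g := by
      rw [← Nat.gcd_mul_left, ← hb', ← hk', ← hg]
    exact Nat.eq_of_mul_eq_mul_left hg0 (by rw [h1, Nat.mul_one])
  have hb'0 : 0 < b' := by
    rcases Nat.eq_zero_or_pos b' with h | h
    · subst h; simp at hb'; omega
    · exact h
  have hk'0 : 0 < k' := by
    rcases Nat.eq_zero_or_pos k' with h | h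
    · subst h; simp at hk'; omega
    · exact h
  have heven : 2 ∣ k' := by
    by_contra hodd
    have h1 : 2 ^ padicValNat 2 k ∣ g * k' := by
      rw [← hk']
      exact pow_padicValNat_dvd
    have h2 : Nat.Coprime (2 ^ padicValNat 2 k) k' :=
      Nat.Coprime.pow_left _ ((Nat.Prime.coprime_iff_not_dvd Nat.prime_two).2 hodd)
    have h3 : 2 ^ padicValNat 2 k ∣ g := h2.dvd_of_dvd_mul_right h1
    have h4 : 2 ^ padicValNat 2 k ∣ b := h3.trans ⟨b', hb'⟩
    have h5 := (padicValNat_dvd_iff_le (by omega)).1 h4
    omega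
  obtain ⟨h, hh⟩ := heven
  have hh0 : 0 < h := by omega
  have hle : g ≤ k := Nat.le_of_dvd hk ⟨k', hk'⟩
  have e : b + k - g = g * (b' + k' - 1) := by
    rw [Nat.mul_sub, Nat.mul_add, ← hb', ← hk', Nat.mul_one]
  rw [← hg, e]
  constructor
  · rw [hb', hk']
    exact double_upper hg0 hb'0 hh hh0 hco
  · have h1 := blow_up hg0 hk'0 (double_lower_coprime hh hh0 hco)
    have e1 : b' + k' - 2 + 1 = b' + k' - 1 := by omega
    rw [e1] at h1
    have e2 : g * (2 * b') = 2 * b := by rw [hb']; ring
    rw [e2, ← hb', ← hk'] at h1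
    exact h1

/-- The infinite cases. -/
theorem inf_spec {b c k : ℕ} (hb : 0 < b) (hk : 0 < k) (hc : 2 * b ≤ c)
    (hv : ¬ (c = 2 * b ∧ padicValNat 2 b < padicValNat 2 k)) (n : ℕ) : Av b c k n := by
  rcases Nat.lt_or_ge (padicValNat 2 b) (padicValNat 2 k) with h | h
  · -- `k` is even
    have h1 : 2 ∣ k := by
      have h2 : 2 ^ 1 ∣ k := (padicValNat_dvd_iff_le (by omega)).2 (by omega)
      simpa using h2
    obtain ⟨m, hm⟩ := h1
    exact av_inf2 (by
      rcases Nat.eq_or_lt_of_le hc with h2 | h2
      · exact absurd ⟨h2.symm, h⟩ hv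
      · exact h2) hm (by omega) n
  · obtain ⟨s, m, hm, hkm⟩ := Nat.exists_eq_two_pow_mul_odd (show k ≠ 0 by omega)
    have h1 : s ≤ padicValNat 2 k := (padicValNat_dvd_iff_le (by omega)).1 ⟨m, hkm⟩
    have h2 : 2 ^ s ∣ b := (padicValNat_dvd_iff_le (by omega)).2 (by omega)
    exact av_inf1 hc h2 (Nat.odd_iff.1 hm) hkm n

theorem not_av_iff {b c k n : ℕ} :
    (∀ a : ℕ → ℤ, Admissible b c n a → Hits k n a) ↔ ¬ Av b c k n := by
  constructor
  · rintro h ⟨a, ha, hk⟩
    exact hk (h a ha)
  · intro h a ha
    by_contra hk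
    exact h ⟨a, ha, hk⟩

theorem finite_case {b c k m : ℕ} (h : ¬ Av b c k m ∧ Av b c k (m - 1)) :
    N b c k = m ∧
      ∀ n : ℕ, ((∀ a : ℕ → ℤ, Admissible b c n a → Hits k n a) ↔ (m : ℕ∞) ≤ n) := by
  have hm : 1 ≤ m := by
    rcases Nat.eq_zero_or_pos m with h1 | h1
    · subst h1
      exact absurd h.2 h.1
    · exact h1
  refine ⟨N_eq hm h.1 h.2, ?_⟩
  intro n
  rw [not_av_iff, Nat.cast_le]
  constructor
  · intro h1
    by_contra hlt
    exact h1 (h.2.mono (by omega))
  · intro h1 h2
    exact h.1 (h2.mono h1)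

/-- The determination of `N (b, c, k)`. -/
theorem main (b c k : ℕ) (hb : 0 < b) (hk : 0 < k) (hbc : b ≤ c) :
    N b c k = value b c k ∧
      ∀ n : ℕ, ((∀ a : ℕ → ℤ, Admissible b c n a → Hits k n a) ↔ value b c k ≤ n) := by
  unfold value
  by_cases h1 : c < 2 * b
  · rw [if_pos h1]
    exact finite_case (valueLt_spec b hb hk hbc h1)
  rw [if_neg h1]
  by_cases h2 : c = 2 * b ∧ padicValNat 2 b < padicValNat 2 k
  · rw [if_pos h2]
    obtain ⟨rfl, h3⟩ := h2
    exact finite_case (double_spec hb hk h3)
  · rw [if_neg h2]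
    have hall := inf_spec (c := c) hb hk (by omega) h2
    have hno : ∀ n : ℕ, ¬ (∀ a : ℕ → ℤ, Admissible b c n a → Hits k n a) := by
      intro n
      rw [not_av_iff, not_not]
      exact hall n
    constructor
    · unfold N
      rw [sInf_eq_top]
      rintro x ⟨n, rfl, _, hn⟩
      exact absurd hn (hno n)
    · intro n
      constructor
      · intro h
        exact absurd h (hno n)
      · intro h
        exact absurd (top_le_iff.1 h) (ENat.natCast_ne_top n)

end Q155.Growth
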