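import Pool.Agent.Q155.Shift.Proof

set_option autoImplicit false

namespace Q155.Growth

open Finset Q155.Shift

theorem no_hit {b c k n : ℕ} (hk0 : 0 < k) {a : ℕ → ℤ} (ha : Admissible b c n a)
    (hk : ¬ Hits k n a) {s t : ℕ} (hs : s ≤ n) (ht : t ≤ n) : a t ≠ a s + k := by
  intro h
  apply hk
  refine ⟨s, t, ?_, ht, by omega⟩
  by_contra hlt
  have := ha.le (show t ≤ s by omega) hs
  omega

/-- Counting in a window: `H` is a set of missing values in the middle of the window. -/
theorem window_count {b c k n : ℕ} (hk0 : 0 < k) (hck : c < 2 * k) {a : ℕ → ℤ}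
    (ha : Admissible b c n a) (hk : ¬ Hits k n a) {i : ℕ} (hi : i + b ≤ n) (H : Finset ℤ)
    (hH : ∀ z ∈ H, a i + c - k < z ∧ z < a i + k ∧ a i ≤ z ∧ ∀ j, j ≤ n → a j ≠ z) :
    H.card + b + 1 ≤ k := by
  classical
  set f : ℕ → ℤ := fun l => if a (i + l) < a i + k then a (i + l) else a (i + l) - k with hf
  have hgap := ha.gap i hi
  have hr : ∀ l, l ≤ b → a i ≤ a (i + l) ∧ a (i + l) ≤ a i + c := by
    intro l hl
    have h1 := ha.le (show i ≤ i + l by omega) (by omega)
    have h2 := ha.le (show i + l ≤ i + b by omega) hi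
    constructor <;> omega
  have hinj : Set.InjOn f (Finset.range (b + 1) : Set ℕ) := by
    intro l hl m hm hlm
    rw [mem_coe, mem_range] at hl hm
    have hl' : i + l ≤ n := by omega
    have hm' : i + m ≤ n := by omega
    simp only [hf] at hlm
    split_ifs at hlm with h1 h2 h2
    · have := ha.inj hl' hm' hlm
      omega
    · exact absurd (show a (i + m) = a (i + l) + k by omega) (no_hit hk0 ha hk hl' hm')
    · exact absurd (show a (i + l) = a (i + m) + k by omega) (no_hit hk0 ha hk hm' hl')
    · have := ha.inj hl' hm' (by omega)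
      omega
  have hsub1 : (Finset.range (b + 1)).image f ⊆ Finset.Ico (a i) (a i + k) := by
    intro z hz
    rw [mem_image] at hz
    obtain ⟨l, hl, rfl⟩ := hz
    rw [mem_range] at hl
    have h1 := hr l (by omega)
    rw [mem_Ico]
    simp only [hf]
    split_ifs with h2
    · exact ⟨h1.1, h2⟩
    · constructor <;> omega
  have hsub2 : H ⊆ Finset.Ico (a i) (a i + k) := by
    intro z hz
    obtain ⟨h1, h2, h3, -⟩ := hH z hz
    rw [mem_Ico]
    exact ⟨h3, h2⟩
  have hdis : Disjoint H ((Finset.range (b + 1)).image f) := by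
    rw [Finset.disjoint_left]
    intro z hz hz'
    rw [mem_image] at hz'
    obtain ⟨l, hl, hlz⟩ := hz'
    rw [mem_range] at hl
    obtain ⟨h1, h2, h3, h4⟩ := hH z hz
    have h5 := hr l (by omega)
    simp only [hf] at hlz
    split_ifs at hlz with h6
    · exact h4 (i + l) (by omega) hlz
    · omega
  have h := card_le_card (union_subset hsub2 hsub1)
  rw [card_union_of_disjoint hdis, card_image_of_injOn hinj, card_range, Int.card_Ico] at h
  omega

theorem sparse {b c k n : ℕ} (hk0 : 0 < k) (hbk : b < k) (hkc : k ≤ c) (hck : c < 2 * k)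
    {a : ℕ → ℤ} (ha : Admissible b c n a) (hk : ¬ Hits k n a) {i : ℕ}
    (hi : i + (k - b) + b ≤ n) : a i + (2 * k - c) ≤ a (i + (k - b)) := by
  classical
  by_contra hcon
  push Not at hcon
  have h := window_count hk0 hck ha hk hi ((Finset.Ico i (i + (k - b))).image (fun j => a j + k))
    (by
      intro z hz
      rw [mem_image] at hz
      obtain ⟨j, hj, rfl⟩ := hz
      rw [mem_Ico] at hj
      have h1 := ha.le hj.1 (by omega)
      have h2 := ha.lt hj.2 (by omega)
      refine ⟨by omega, by omega, by omega, ?_⟩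
      intro l hl
      exact no_hit hk0 ha hk (by omega) hl)
  rw [card_image_of_injOn, Nat.card_Ico] at h
  · omega
  · intro s hs t ht hst
    rw [mem_coe, mem_Ico] at hs ht
    exact ha.inj (by omega) (by omega) (by simpa using hst)

theorem ge_id {b c n : ℕ} {a : ℕ → ℤ} (ha : Admissible b c n a) : ∀ i, i ≤ n → (i : ℤ) ≤ a i := by
  intro i
  induction i with
  | zero => intro _; rw [ha.zero]; rfl
  | succ i ih =>
    intro hi
    have h3 := ih (by omega)
    have h4 := ha.strict i (by omega)
    push_cast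
    omega

theorem grow {b c k n : ℕ} (hk0 : 0 < k) (hbk : b < k) (hkc : k ≤ c) (hck : c < 2 * k)
    {a : ℕ → ℤ} (ha : Admissible b c n a) (hk : ¬ Hits k n a) (t : ℕ) :
    ∀ q : ℕ, b + q * (k - b) + t ≤ n → (q : ℤ) * (2 * k - c) + t ≤ a (q * (k - b) + t) := by
  intro q
  induction q with
  | zero =>
    intro h
    rw [Nat.zero_mul] at h ⊢
    simpa using ge_id ha t (by omega)
  | succ q ih =>
    intro h
    rw [Nat.succ_mul] at h ⊢
    have h1 := ih (by omega)
    have h2 := sparse hk0 hbk hkc hck ha hk (i := q * (k - b) + t) (by omega)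
    have e : q * (k - b) + t + (k - b) = q * (k - b) + (k - b) + t := by omega
    rw [e] at h2
    push_cast
    have e2 : ((q : ℤ) + 1) * (2 * k - c) + t = (q : ℤ) * (2 * k - c) + t + (2 * k - c) := by ring
    rw [e2]
    linarith

/-- The upper bound for `N` when `b < k ≤ c < 2 b`. -/
theorem upper {b c k : ℕ} (hbk : b < k) (hkc : k ≤ c) (hc : c < 2 * b) (q t : ℕ)
    (h : (c : ℤ) + k ≤ 2 * b + q * (2 * k - c) + t) : ¬ Av b c k (b + q * (k - b) + t) := by
  classical
  rintro ⟨a, ha, hk⟩
  have hk0 : 0 < k := by omega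
  have hck : c < 2 * k := by omega
  set n := b + q * (k - b) + t with hn
  have hgrow := grow hk0 hbk hkc hck ha hk t q (by omega)
  set m := q * (k - b) + t with hm
  have hmn : m + b = n := by omega
  set H := (Finset.Ioo ((c : ℤ) - k) k).filter (fun z => ∀ j, j ≤ n → a j ≠ z) with hH
  have hHc : H.card + b + 1 ≤ k := by
    apply window_count hk0 hck ha hk (i := 0) (by omega) H
    intro z hz
    rw [hH, mem_filter, mem_Ioo] at hz
    rw [ha.zero]
    exact ⟨by omega, by omega, by omega, hz.2⟩
  set J := (Finset.range (n + 1)).filter (fun j => (c : ℤ) - k < a j ∧ a j ≤ (c : ℤ) + k - 2 * b)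
    with hJ
  have hJc : k - b + 1 ≤ J.card := by
    have h1 := Finset.card_filter_add_card_filter_not (s := Finset.Ioc ((c : ℤ) - k) ((c : ℤ) + k - 2 * b))
      (fun z => ∀ j, j ≤ n → a j ≠ z)
    rw [Int.card_Ioc] at h1
    have h2 : ((Finset.Ioc ((c : ℤ) - k) ((c : ℤ) + k - 2 * b)).filter
        (fun z => ∀ j, j ≤ n → a j ≠ z)).card ≤ H.card := by
      apply card_le_card
      intro z hz
      rw [mem_filter, mem_Ioc] at hz
      rw [hH, mem_filter, mem_Ioo]
      exact ⟨by omega, hz.2⟩
    have h3 : ((Finset.Ioc ((c : ℤ) - k) ((c : ℤ) + k - 2 * b)).filter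
        (fun z => ¬ ∀ j, j ≤ n → a j ≠ z)).card ≤ (J.image a).card := by
      apply card_le_card
      intro z hz
      rw [mem_filter, mem_Ioc] at hz
      obtain ⟨hz1, hz2⟩ := hz
      push Not at hz2
      obtain ⟨j, hj, rfl⟩ := hz2
      rw [mem_image]
      refine ⟨j, ?_, rfl⟩
      rw [hJ, mem_filter, mem_range]
      exact ⟨by omega, hz1⟩
    have h4 := card_image_le (s := J) (f := a)
    omega
  have hJne : J.Nonempty := by
    rw [← Finset.card_pos]
    omega
  set j1 := J.min' hJne with hj1
  set j2 := J.max' hJne with hj2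
  have hm1 : j1 ∈ J := Finset.min'_mem _ _
  have hm2 : j2 ∈ J := Finset.max'_mem _ _
  have hsub : J ⊆ Finset.Icc j1 j2 := by
    intro j hj
    rw [mem_Icc]
    exact ⟨Finset.min'_le _ _ hj, Finset.le_max' _ _ hj⟩
  have hc2 := card_le_card hsub
  rw [Nat.card_Icc] at hc2
  rw [hJ, mem_filter, mem_range] at hm1 hm2
  have hle : j2 ≤ m := by
    by_contra hlt
    have := ha.lt (show m < j2 by omega) (by omega)
    omega
  have hs := sparse hk0 hbk hkc hck ha hk (i := j2 - (k - b)) (by omega)
  have e : j2 - (k - b) + (k - b) = j2 := by omega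
  rw [e] at hs
  have hl := ha.le (show j1 ≤ j2 - (k - b) by omega) (by omega)
  omega

/-- The upper bound when `c ≤ k`. -/
theorem upper' {b c k : ℕ} (hb : 0 < b) (hbk : b < k) (hck : c ≤ k) (hc : c < 2 * b) :
    ¬ Av b c k k := by
  rintro ⟨a, ha, hk⟩
  have h1 := last_window hb hc (by omega) ha hk (by omega)
  have h2 := two_mul_le (by omega) ha hk (j := 0) (by omega)
  have h3 := ha.gap (k - b) (by omega)
  have e : k - b + b = k := by omega
  rw [e] at h3
  rw [ha.zero, Nat.zero_add] at h2
  omega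

/-- The upper bound when `b` terms suffice. -/
theorem upper_b {b c k : ℕ} (hk0 : 0 < k) (h : c - b < k * (b / k)) (hbc : b ≤ c) :
    ¬ Av b c k b := by
  classical
  rintro ⟨a, ha, hk⟩
  -- each pair `x i, x i + k` contains a missing value
  set x : ℕ → ℤ := fun i => ((2 * k * (i / k) + i % k : ℕ) : ℤ) with hx
  set A : Finset ℤ := (Finset.range (b + 1)).image a with hA
  have hAc : A.card = b + 1 := by
    rw [hA, card_image_of_injOn, card_range]
    intro s hs t ht hst
    rw [mem_coe, mem_range] at hs ht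
    exact ha.inj (by omega) (by omega) hst
  have hgap := ha.gap 0 (by omega)
  rw [ha.zero, zero_add, zero_add] at hgap
  have hAsub : A ⊆ Finset.Icc 0 (c : ℤ) := by
    intro z hz
    rw [hA, mem_image] at hz
    obtain ⟨i, hi, rfl⟩ := hz
    rw [mem_range] at hi
    rw [mem_Icc]
    have h1 := ha.nonneg (show i ≤ b by omega)
    have h2 := ha.le (show i ≤ b by omega) le_rfl
    constructor <;> omega
  have hmem : ∀ z, z ∈ A ↔ ∃ i, i ≤ b ∧ a i = z := by
    intro z
    rw [hA, mem_image]
    constructor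
    · rintro ⟨i, hi, h⟩
      rw [mem_range] at hi
      exact ⟨i, by omega, h⟩
    · rintro ⟨i, hi, h⟩
      exact ⟨i, by rw [mem_range]; omega, h⟩
  set y : ℕ → ℤ := fun i => if x i ∈ A then x i + k else x i with hy
  have hyA : ∀ i, y i ∉ A := by
    intro i
    simp only [hy]
    split_ifs with h1
    · intro h2
      obtain ⟨s, hs, hs'⟩ := (hmem _).1 h1
      obtain ⟨t, ht, ht'⟩ := (hmem _).1 h2
      exact no_hit hk0 ha hk hs ht (by omega)
    · exact h1
  have hyr : ∀ i, i ≤ c - b → 0 ≤ y i ∧ y i ≤ c := by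
    intro i hi
    have h1 : i / k < b / k := by
      rw [Nat.div_lt_iff_lt_mul hk0]
      calc i ≤ c - b := hi
        _ < k * (b / k) := h
        _ = b / k * k := mul_comm _ _
    have h2 : k * (i / k) + i % k = i := Nat.div_add_mod i k
    have h3 : k * (i / k + 1) ≤ k * (b / k) := Nat.mul_le_mul_left k h1
    have h4 : k * (b / k) ≤ b := Nat.mul_div_le b k
    have h5 : 2 * k * (i / k) = k * (i / k) + k * (i / k) := by ring
    rw [Nat.mul_add, Nat.mul_one] at h3
    have h6 : 2 * k * (i / k) + i % k + k ≤ c := by omega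
    have h7 : x i + k ≤ c := by
      simp only [hx]
      exact_mod_cast h6
    have h8 : 0 ≤ x i := Int.natCast_nonneg _
    simp only [hy]
    split_ifs <;> constructor <;> omega
  have hyi : Set.InjOn y (Finset.range (c - b + 1) : Set ℕ) := by
    intro i _ j _ hij
    -- reduce modulo `k` and divide by `2 k`
    have hm : ∀ i, ∃ ε : ℕ, ε ≤ 1 ∧ y i = ((2 * k * (i / k) + i % k + ε * k : ℕ) : ℤ) := by
      intro i
      by_cases h1 : x i ∈ A
      · refine ⟨1, le_rfl, ?_⟩
        have e : y i = x i + k := if_pos h1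
        rw [e, hx]
        push_cast
        ring
      · refine ⟨0, by omega, ?_⟩
        have e : y i = x i := if_neg h1
        rw [e, hx]
        push_cast
        ring
    obtain ⟨ε, hε, h1⟩ := hm i
    obtain ⟨δ, hδ, h2⟩ := hm j
    rw [h1, h2] at hij
    have h3 : 2 * k * (i / k) + i % k + ε * k = 2 * k * (j / k) + j % k + δ * k := by
      exact_mod_cast hij
    have h4 := Nat.mod_lt i hk0
    have h5 := Nat.mod_lt j hk0
    have h6 : (2 * k * (i / k) + i % k + ε * k) / (2 * k) =
        (2 * k * (j / k) + j % k + δ * k) / (2 * k) := by rw [h3]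
    have hq : ∀ (p r ε : ℕ), r < k → ε ≤ 1 → (2 * k * p + r + ε * k) / (2 * k) = p := by
      intro p r ε hr hε
      rw [add_assoc, Nat.mul_add_div (by omega)]
      rw [Nat.div_eq_of_lt, add_zero]
      have : ε * k ≤ 1 * k := Nat.mul_le_mul_right k hε
      omega
    rw [hq _ _ _ h4 hε, hq _ _ _ h5 hδ] at h6
    have h7 : (2 * k * (i / k) + i % k + ε * k) % k =
        (2 * k * (j / k) + j % k + δ * k) % k := by rw [h3]
    have hr : ∀ (p r ε : ℕ), r < k → (2 * k * p + r + ε * k) % k = r := by
      intro p r ε hr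
      rw [Nat.add_mul_mod_self_right]
      have e : 2 * k * p + r = r + k * (2 * p) := by ring
      rw [e, Nat.add_mul_mod_self_left, Nat.mod_eq_of_lt hr]
    rw [hr _ _ _ h4, hr _ _ _ h5] at h7
    rw [← Nat.div_add_mod i k, ← Nat.div_add_mod j k, h6, h7]
  have hdis : Disjoint A ((Finset.range (c - b + 1)).image y) := by
    rw [Finset.disjoint_left]
    intro z hz hz'
    rw [mem_image] at hz'
    obtain ⟨i, _, rfl⟩ := hz'
    exact hyA i hz
  have hsub : (Finset.range (c - b + 1)).image y ⊆ Finset.Icc 0 (c : ℤ) := by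
    intro z hz
    rw [mem_image] at hz
    obtain ⟨i, hi, rfl⟩ := hz
    rw [mem_range] at hi
    rw [mem_Icc]
    exact hyr i (by omega)
  have htot := card_le_card (union_subset hAsub hsub)
  rw [card_union_of_disjoint hdis, hAc, card_image_of_injOn hyi, card_range, Int.card_Icc] at htot
  omega

end Q155.Growth
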